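import Pool.Agent.Helper5.CrossIndex.Defs

set_option autoImplicit false

namespace Pool.Agent.Helper5.CrossIndex

universe u

variable {G : Type u} [Group G]

/-- bounded integral cocycle data on a `G`-poset -/
def HasCoc (g : G) (m : ℕ) (M : ℤ) (P : GPoset G) : Prop :=
  ∃ (lam : P.P → ZMod m) (c : P.P → P.P → ℤ),
    (∀ x, lam (g • x) = lam x + 1) ∧
    (∀ x y, x ≤ y → ((c x y : ℤ) : ZMod m) = lam y - lam x) ∧
    (∀ x y z, x ≤ y → y ≤ z → c x z = c x y + c y z) ∧
    (∀ x y, x ≤ y → |c x y| ≤ M) ∧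
    (∀ x y, x ≤ y → c (g • x) (g • y) = c x y)

/-- bounded integral cocycle data on the edges of a `G`-complex -/
def HasEdge (g : G) (m : ℕ) (M : ℤ) (X : GComplex G) : Prop :=
  ∃ (lam : X.V → ZMod m) (c : X.V → X.V → ℤ),
    (∀ x, lam (g • x) = lam x + 1) ∧
    (∀ (u v : X.V) (s : Finset X.V), s ∈ X.K.faces → u ∈ s → v ∈ s →
      ((c u v : ℤ) : ZMod m) = lam v - lam u ∧ |c u v| ≤ M ∧ c (g • u) (g • v) = c u v) ∧
    (∀ (u v w : X.V) (s : Finset X.V), s ∈ X.K.faces → u ∈ s → v ∈ s → w ∈ s →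
      c u w = c u v + c v w)

lemma HasCoc.pull {g : G} {m : ℕ} {M : ℤ} {P R : GPoset G} (h : P.MapsTo R)
    (hR : HasCoc g m M R) : HasCoc g m M P := by
  obtain ⟨f, hf, hg⟩ := h
  obtain ⟨lam, c, h1, h2, h3, h4, h5⟩ := hR
  refine ⟨fun x => lam (f x), fun x y => c (f x) (f y), ?_, ?_, ?_, ?_, ?_⟩
  · intro x; simp only [hg, h1]
  · intro x y hxy; exact h2 _ _ (hf _ _ hxy)
  · intro x y z hxy hyz; exact h3 _ _ _ (hf _ _ hxy) (hf _ _ hyz)
  · intro x y hxy; exact h4 _ _ (hf _ _ hxy)
  · intro x y hxy; simp only [hg]; exact h5 _ _ (hf _ _ hxy)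

/-- the one-element face -/
def vtx (X : GComplex G) (u : X.V) : X.facePoset.P := ⟨{u}, X.K.singleton_mem u⟩

lemma smul_vtx (X : GComplex G) (g : G) (u : X.V) : g • vtx X u = vtx X (g • u) := by
  apply Subtype.ext
  show ({u} : Finset X.V).map (MulAction.toPerm g).toEmbedding = {g • u}
  simp

lemma vtx_le (X : GComplex G) {u : X.V} {s : X.facePoset.P} (h : u ∈ s.1) : vtx X u ≤ s := by
  show ({u} : Finset X.V) ≤ s.1
  exact Finset.singleton_subset_iff.mpr h

/-- From the face poset to the complex: bound doubles. -/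
lemma HasCoc.toEdge {g : G} {m : ℕ} {M : ℤ} {X : GComplex G} (h : HasCoc g m M X.facePoset) :
    HasEdge g m (2 * M) X := by
  classical
  obtain ⟨lam, c, h1, h2, h3, h4, h5⟩ := h
  -- the face spanned by two vertices of a face
  have hpair : ∀ (u v : X.V) (s : Finset X.V), s ∈ X.K.faces → u ∈ s → v ∈ s →
      ({u, v} : Finset X.V) ∈ X.K.faces := by
    intro u v s hs hu hv
    have := X.K.isRelLowerSet_faces hs
    exact this.2 (by
      intro x hx
      simp only [Finset.mem_insert, Finset.mem_singleton] at hx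
      rcases hx with rfl | rfl
      · exact hu
      · exact hv) ⟨u, by simp⟩
  let e : X.V → X.V → ℤ := fun u v =>
    if h : ({u, v} : Finset X.V) ∈ X.K.faces then
      c (vtx X u) ⟨{u, v}, h⟩ - c (vtx X v) ⟨{u, v}, h⟩ else 0
  -- value through an arbitrary face
  have he : ∀ (u v : X.V) (s : X.facePoset.P), u ∈ s.1 → v ∈ s.1 →
      e u v = c (vtx X u) s - c (vtx X v) s := by
    intro u v s hu hv
    have hp := hpair u v s.1 s.2 hu hv
    simp only [e, dif_pos hp]
    have hle : (⟨{u, v}, hp⟩ : X.facePoset.P) ≤ s := by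
      show ({u, v} : Finset X.V) ≤ s.1
      intro x hx
      simp only [Finset.mem_insert, Finset.mem_singleton] at hx
      rcases hx with rfl | rfl
      · exact hu
      · exact hv
    have e1 := h3 (vtx X u) ⟨{u, v}, hp⟩ s (vtx_le X (by simp)) hle
    have e2 := h3 (vtx X v) ⟨{u, v}, hp⟩ s (vtx_le X (by simp)) hle
    rw [e1, e2]; ring
  refine ⟨fun u => lam (vtx X u), e, ?_, ?_, ?_⟩
  · intro u
    show lam (vtx X (g • u)) = lam (vtx X u) + 1
    rw [← smul_vtx, h1]
  · intro u v s hs hu hv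
    have hs' := he u v ⟨s, hs⟩ hu hv
    have lu : vtx X u ≤ (⟨s, hs⟩ : X.facePoset.P) := vtx_le X hu
    have lv : vtx X v ≤ (⟨s, hs⟩ : X.facePoset.P) := vtx_le X hv
    refine ⟨?_, ?_, ?_⟩
    · rw [hs']
      push_cast
      rw [h2 _ _ lu, h2 _ _ lv]
      ring
    · rw [hs']
      have a1 := h4 _ _ lu
      have a2 := h4 _ _ lv
      rw [abs_le] at a1 a2 ⊢
      constructor <;> linarith
    · let s' : X.facePoset.P := ⟨s, hs⟩
      have hg := he (g • u) (g • v) (g • s')
        (by
          show g • u ∈ s.map (MulAction.toPerm g).toEmbedding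
          rw [Finset.mem_map]; exact ⟨u, hu, rfl⟩)
        (by
          show g • v ∈ s.map (MulAction.toPerm g).toEmbedding
          rw [Finset.mem_map]; exact ⟨v, hv, rfl⟩)
      rw [hg, hs', ← smul_vtx, ← smul_vtx, h5 _ _ lu, h5 _ _ lv]
  · intro u v w s hs hu hv hw
    rw [he u w ⟨s, hs⟩ hu hw, he u v ⟨s, hs⟩ hu hv, he v w ⟨s, hs⟩ hv hw]
    ring

/-- From the order complex to the poset. -/
lemma HasEdge.toCoc {g : G} {m : ℕ} {M : ℤ} {P : GPoset G} (h : HasEdge g m M P.orderComplex) :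
    HasCoc g m M P := by
  classical
  obtain ⟨lam, c, h1, h2, h3⟩ := h
  have hface2 : ∀ x y : P.P, x ≤ y → ({x, y} : Finset P.P) ∈ P.orderComplex.K.faces := by
    intro x y hxy
    refine ⟨⟨x, by simp⟩, ?_⟩
    intro a ha b hb hab
    simp only [Finset.coe_insert, Finset.coe_singleton, Set.mem_insert_iff,
      Set.mem_singleton_iff] at ha hb
    rcases ha with rfl | rfl <;> rcases hb with rfl | rfl
    · exact Or.inl le_rfl
    · exact Or.inl hxy
    · exact Or.inr hxy
    · exact Or.inl le_rfl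
  have hface3 : ∀ x y z : P.P, x ≤ y → y ≤ z →
      ({x, y, z} : Finset P.P) ∈ P.orderComplex.K.faces := by
    intro x y z hxy hyz
    refine ⟨⟨x, by simp⟩, ?_⟩
    intro a ha b hb hab
    simp only [Finset.coe_insert, Finset.coe_singleton, Set.mem_insert_iff,
      Set.mem_singleton_iff] at ha hb
    rcases ha with rfl | rfl | rfl <;> rcases hb with rfl | rfl | rfl
    · exact Or.inl le_rfl
    · exact Or.inl hxy
    · exact Or.inl (hxy.trans hyz)
    · exact Or.inr hxy
    · exact Or.inl le_rfl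
    · exact Or.inl hyz
    · exact Or.inr (hxy.trans hyz)
    · exact Or.inr hyz
    · exact Or.inl le_rfl
  have m1 : ∀ x y : P.P, x ∈ ({x, y} : Finset P.P) := fun x y => by simp
  have m2 : ∀ x y : P.P, y ∈ ({x, y} : Finset P.P) := fun x y => by simp
  have n1 : ∀ x y z : P.P, x ∈ ({x, y, z} : Finset P.P) := fun x y z => by simp
  have n2 : ∀ x y z : P.P, y ∈ ({x, y, z} : Finset P.P) := fun x y z => by simp
  have n3 : ∀ x y z : P.P, z ∈ ({x, y, z} : Finset P.P) := fun x y z => by simp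
  refine ⟨lam, c, h1, ?_, ?_, ?_, ?_⟩
  · intro x y hxy
    exact (h2 x y _ (hface2 x y hxy) (m1 x y) (m2 x y)).1
  · intro x y z hxy hyz
    exact h3 x y z _ (hface3 x y z hxy hyz) (n1 x y z) (n2 x y z) (n3 x y z)
  · intro x y hxy
    exact (h2 x y _ (hface2 x y hxy) (m1 x y) (m2 x y)).2.1
  · intro x y hxy
    exact (h2 x y _ (hface2 x y hxy) (m1 x y) (m2 x y)).2.2

lemma HasCoc.sd_iter {g : G} {m : ℕ} (r : ℕ) : ∀ {M : ℤ} {X : GComplex G},
    HasCoc g m M ((GComplex.sd^[r]) X).facePoset → HasEdge g m (2 ^ (r + 1) * M) X := by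
  induction r with
  | zero =>
    intro M X h
    simpa using h.toEdge
  | succ r ih =>
    intro M X h
    rw [Function.iterate_succ_apply'] at h
    have h1 : HasEdge g m (2 * M) ((GComplex.sd^[r]) X).sd := h.toEdge
    have h2 : HasCoc g m (2 * M) ((GComplex.sd^[r]) X).facePoset := h1.toCoc
    have h3 := ih h2
    have e : (2 : ℤ) ^ (r + 1) * (2 * M) = 2 ^ (r + 1 + 1) * M := by ring
    rwa [e] at h3

/-- `Q_1 G` has cocycle data for every element `g ≠ 1`, with `m` the order of `g`. -/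
lemma hasCoc_Q [Fintype G] (g : G) : HasCoc g (orderOf g) (orderOf g) (QPoset G 1) := by
  classical
  -- right cosets of the subgroup generated by `g`
  set m := orderOf g with hm
  have hmpos : 0 < m := orderOf_pos g
  have : NeZero m := ⟨hmpos.ne'⟩
  let H := Subgroup.zpowers g
  -- representative of the coset `H x`
  let rel : Setoid G := QuotientGroup.rightRel H
  let rep : G → G := fun x => Quotient.out (Quotient.mk rel x)
  have hrep : ∀ x : G, ∃ a : ℤ, g ^ a * rep x = x := by
    intro x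
    have h1 : Quotient.mk rel (rep x) = Quotient.mk rel x := Quotient.out_eq _
    have h2 : rel (rep x) x := Quotient.exact h1
    have h3 : x * (rep x)⁻¹ ∈ H := QuotientGroup.rightRel_apply.mp h2
    obtain ⟨a, ha⟩ := Subgroup.mem_zpowers_iff.mp h3
    exact ⟨a, by rw [ha]; group⟩
  have hrepg : ∀ x : G, rep (g * x) = rep x := by
    intro x
    show Quotient.out (Quotient.mk rel (g * x)) = Quotient.out (Quotient.mk rel x)
    congr 1
    apply Quotient.sound
    show rel (g * x) x
    rw [QuotientGroup.rightRel_apply]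
    rw [mul_inv_rev, ← mul_assoc, mul_inv_cancel, one_mul]
    exact H.inv_mem (Subgroup.mem_zpowers g)
  choose a ha using hrep
  let lamG : G → ZMod m := fun x => (a x : ZMod m)
  have hlamG : ∀ x, lamG (g * x) = lamG x + 1 := by
    intro x
    have h1 := ha (g * x)
    rw [hrepg] at h1
    have h2 : g ^ a (g * x) * rep x = g ^ (a x + 1) * rep x := by
      rw [h1, add_comm, zpow_one_add, mul_assoc, ha x]
    have h3 := mul_right_cancel h2
    have h4 : a (g * x) ≡ a x + 1 [ZMOD (m : ℤ)] := by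
      rw [hm]; exact zpow_eq_zpow_iff_modEq.mp h3
    have h5 := (ZMod.intCast_eq_intCast_iff _ _ _).mpr h4
    show ((a (g * x) : ℤ) : ZMod m) = (a x : ZMod m) + 1
    rw [h5]; push_cast; rfl
  refine ⟨fun x => lamG x.1, fun x y => ((lamG y.1 - lamG x.1).val : ℤ), ?_, ?_, ?_, ?_, ?_⟩
  · intro x
    exact hlamG x.1
  · intro x y _
    push_cast
    rw [ZMod.natCast_val, ZMod.cast_id]
  · intro x y z hxy hyz
    rcases hxy with rfl | hxy
    · simp
    · rcases hyz with rfl | hyz
      · simp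
      · exfalso
        have h1 := x.2.2
        have h2 := z.2.2
        have h3 : x.2.1 < y.2.1 := hxy
        have h4 : y.2.1 < z.2.1 := hyz
        omega
  · intro x y _
    show |(((lamG y.1 - lamG x.1).val : ℕ) : ℤ)| ≤ (m : ℤ)
    rw [abs_of_nonneg (by positivity)]
    exact_mod_cast (ZMod.val_lt _).le
  · intro x y _
    show (((lamG (g * y.1) - lamG (g * x.1)).val : ℕ) : ℤ) = _
    rw [hlamG, hlamG, add_sub_add_right_eq_sub]

end Pool.Agent.Helper5.CrossIndex
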