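import Pool.Agent.Helper5.CrossIndex.Defs

set_option autoImplicit false

namespace Pool.Agent.Helper5.CrossIndex

universe u

/-- the vertex types: `inl i` is `c_i`, `inr none` is `a`, `inr (some t)` is `b_t` -/
abbrev W (T : ℕ) : Type := Fin 2 ⊕ Option (Fin (T + 1))

/-- the colour `s mod 2` -/
def par (s : ℕ) : Fin 2 := ⟨s % 2, Nat.mod_lt _ (by norm_num)⟩

lemma par_eq {s t : ℕ} (h : par s = par t) : s % 2 = t % 2 := congrArg Fin.val h

def cW (T : ℕ) (s : ℕ) : W T := Sum.inl (par s)
def bW (T : ℕ) (t : ℕ) : W T := Sum.inr (some (Fin.ofNat (T + 1) t))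
def aW (T : ℕ) : W T := Sum.inr none

lemma cW_eq {T s t : ℕ} (h : cW T s = cW T t) : s % 2 = t % 2 :=
  par_eq (Sum.inl_injective h)

lemma bW_eq {T s t : ℕ} (hs : s ≤ T) (ht : t ≤ T) (h : bW T s = bW T t) : s = t := by
  have h1 := Option.some_injective _ (Sum.inr_injective h)
  have h2 := congrArg Fin.val h1
  simp only [Fin.ofNat] at h2
  rwa [Nat.mod_eq_of_lt (by omega), Nat.mod_eq_of_lt (by omega)] at h2

lemma cW_ne_bW {T s t : ℕ} : cW T s ≠ bW T t := by
  intro h; exact Sum.inl_ne_inr h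

lemma cW_ne_aW {T s : ℕ} : cW T s ≠ aW T := by
  intro h; exact Sum.inl_ne_inr h

lemma bW_ne_aW {T s : ℕ} : bW T s ≠ aW T := by
  intro h
  have := Sum.inr_injective h
  exact Option.some_ne_none _ this

variable {G : Type u} [Group G]

def cv (T : ℕ) (g : G) (s : ℕ) : G × W T := (g ^ (s / 2), cW T s)
def bv (G : Type u) [Group G] (T : ℕ) (t : ℕ) : G × W T := (1, bW T t)
def av (G : Type u) [Group G] (T : ℕ) : G × W T := (1, aW T)

/-- the maximal simplices up to translation -/
def pieces (T : ℕ) (g : G) : Set (Set (G × W T)) :=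
  {S | ∃ t < T, S = {bv G T t, bv G T (t + 1), cv T g (t + 1)} ∨
    S = {bv G T t, cv T g t, cv T g (t + 1)} ∨ S = {av G T, bv G T t, bv G T (t + 1)}}

lemma colorful {T : ℕ} {g : G} {S : Set (G × W T)} (hS : S ∈ pieces T g) {u v : G × W T}
    (hu : u ∈ S) (hv : v ∈ S) (h : u.2 = v.2) : u = v := by
  obtain ⟨t, ht, rfl | rfl | rfl⟩ := hS
  · rcases hu with rfl | rfl | rfl <;> rcases hv with rfl | rfl | rfl
    · rfl
    · have := bW_eq (by omega) (by omega) h; omega
    · exact absurd h.symm cW_ne_bW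
    · have := bW_eq (by omega) (by omega) h; omega
    · rfl
    · exact absurd h.symm cW_ne_bW
    · exact absurd h cW_ne_bW
    · exact absurd h cW_ne_bW
    · rfl
  · rcases hu with rfl | rfl | rfl <;> rcases hv with rfl | rfl | rfl
    · rfl
    · exact absurd h.symm cW_ne_bW
    · exact absurd h.symm cW_ne_bW
    · exact absurd h cW_ne_bW
    · rfl
    · have := cW_eq h; omega
    · exact absurd h cW_ne_bW
    · have := cW_eq h; omega
    · rfl
  · rcases hu with rfl | rfl | rfl <;> rcases hv with rfl | rfl | rfl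
    · rfl
    · exact absurd h.symm bW_ne_aW
    · exact absurd h.symm bW_ne_aW
    · exact absurd h bW_ne_aW
    · rfl
    · have := bW_eq (by omega) (by omega) h; omega
    · exact absurd h bW_ne_aW
    · have := bW_eq (by omega) (by omega) h; omega
    · rfl

lemma pieces_three {T : ℕ} {g : G} {S : Set (G × W T)} (hS : S ∈ pieces T g) :
    ∃ p q r, S = {p, q, r} := by
  obtain ⟨t, ht, rfl | rfl | rfl⟩ := hS
  · exact ⟨_, _, _, rfl⟩
  · exact ⟨_, _, _, rfl⟩
  · exact ⟨_, _, _, rfl⟩

lemma exists_piece {T : ℕ} (hT : 0 < T) (g : G) (w : W T) :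
    ∃ S ∈ pieces T g, ((1 : G), w) ∈ S := by
  rcases w with i | w
  · refine ⟨{bv G T 0, cv T g 0, cv T g 1}, ⟨0, hT, Or.inr (Or.inl rfl)⟩, ?_⟩
    fin_cases i
    · right; left
      show ((1 : G), _) = (g ^ (0 / 2), _)
      simp [cW, par]
    · right; right
      show ((1 : G), _) = (g ^ (1 / 2), _)
      simp [cW, par]
  · rcases w with _ | t
    · exact ⟨{av G T, bv G T 0, bv G T (0 + 1)}, ⟨0, hT, Or.inr (Or.inr rfl)⟩, Or.inl rfl⟩
    · rcases Nat.lt_or_ge t.1 T with h | h
      · refine ⟨{bv G T t.1, cv T g t.1, cv T g (t.1 + 1)}, ⟨t.1, h, Or.inr (Or.inl rfl)⟩,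
          Or.inl ?_⟩
        show ((1 : G), _) = (1, bW T t.1)
        have : Fin.ofNat (T + 1) t.1 = t := by
          apply Fin.ext
          simp only [Fin.ofNat]
          exact Nat.mod_eq_of_lt t.2
        rw [bW, this]
      · have ht : t.1 = T - 1 + 1 := by omega
        refine ⟨{av G T, bv G T (T - 1), bv G T (T - 1 + 1)},
          ⟨T - 1, by omega, Or.inr (Or.inr rfl)⟩, Or.inr (Or.inr ?_)⟩
        show ((1 : G), _) = (1, bW T (T - 1 + 1))
        have : Fin.ofNat (T + 1) (T - 1 + 1) = t := by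
          apply Fin.ext
          simp only [Fin.ofNat]
          rw [ht]
          exact Nat.mod_eq_of_lt (by omega)
        rw [bW, this]

variable [Fintype G]

/-- the complex -/
noncomputable def theK (T : ℕ) (hT : 0 < T) (g : G) : GComplex G where
  V := G × W T
  fin := inferInstance
  act :=
    { smul := fun h v => (h * v.1, v.2)
      one_smul := fun v => by
        show (1 * v.1, v.2) = v
        rw [one_mul]
      mul_smul := fun h k v => by
        show (h * k * v.1, v.2) = (h * (k * v.1), v.2)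
        rw [mul_assoc] }
  K :=
    { faces := {s | s.Nonempty ∧ ∃ h : G, ∃ S ∈ pieces T g, ∀ v ∈ s, (h * v.1, v.2) ∈ S}
      isRelLowerSet_faces := fun {s} hs => ⟨hs.1, fun {t} hts ht => by
        obtain ⟨h, S, hS, hv⟩ := hs.2
        exact ⟨ht, h, S, hS, fun v hvt => hv v (hts hvt)⟩⟩
      singleton_mem := fun v => by
        refine ⟨Finset.singleton_nonempty v, v.1⁻¹, ?_⟩
        obtain ⟨S, hS, hv⟩ := exists_piece hT g v.2
        refine ⟨S, hS, fun w hw => ?_⟩
        rw [Finset.mem_singleton] at hw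
        rw [hw, inv_mul_cancel]
        exact hv }
  map_mem := fun k s hs => by
    refine ⟨hs.1.map, ?_⟩
    obtain ⟨h, S, hS, hv⟩ := hs.2
    refine ⟨h * k⁻¹, S, hS, fun w hw => ?_⟩
    rw [Finset.mem_map] at hw
    obtain ⟨v, hvs, rfl⟩ := hw
    show (h * k⁻¹ * (k * v.1), v.2) ∈ S
    rw [mul_assoc, inv_mul_cancel_left]
    exact hv v hvs

/-- no group element but `1` maps a face to itself -/
def GComplex.FreeFaces {G : Type u} [Group G] (X : GComplex G) : Prop :=
  ∀ (g : G) (s : X.facePoset.P), g • s = s → g = 1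

lemma theK_free_aux {T : ℕ} (hT : 0 < T) (g : G) (s : Finset (G × W T))
    (hs : s ∈ (theK T hT g).K.faces) (k : G) (v : G × W T) (hv : v ∈ s)
    (hkv : (k * v.1, v.2) ∈ s) : k = 1 := by
  obtain ⟨_, h, S, hS, hm⟩ := hs
  have h1 := hm v hv
  have h2 := hm _ hkv
  have h3 := colorful hS h1 h2 rfl
  have h4 : h * v.1 = h * (k * v.1) := congrArg Prod.fst h3
  have h5 : v.1 = k * v.1 := mul_left_cancel h4
  have h6 : 1 * v.1 = k * v.1 := by rw [one_mul]; exact h5
  exact (mul_right_cancel h6).symm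

lemma mem_smul_face {G : Type u} [Group G] (X : GComplex G) (k : G) (s : X.facePoset.P) (v : X.V)
    (hv : v ∈ s.1) : k • v ∈ (k • s).1 := Finset.mem_map.mpr ⟨v, hv, rfl⟩

lemma theK_freeFaces {T : ℕ} (hT : 0 < T) (g : G) : (theK T hT g).FreeFaces := by
  intro k s hks
  obtain ⟨v, hv⟩ := s.2.1
  have h1 := mem_smul_face (theK T hT g) k s v hv
  rw [hks] at h1
  exact theK_free_aux hT g s.1 s.2 k v hv h1

lemma theK_free {T : ℕ} (hT : 0 < T) (g : G) : (theK T hT g).Free := by
  intro k x hkx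
  obtain ⟨s, hs, hx⟩ := x.2.2.2
  -- a vertex of the support
  have h1 : ∃ v, x.1 v ≠ 0 := by
    by_contra hcon
    push Not at hcon
    have h2 := x.2.2.1
    rw [Finset.sum_eq_zero (fun v _ => hcon v)] at h2
    exact zero_ne_one h2
  obtain ⟨v, hv⟩ := h1
  have h2 : x.1 (k⁻¹ • v) = x.1 v := congrFun (congrArg Subtype.val hkx) v
  have h3 : k⁻¹ • v ∈ s := hx _ (by rw [h2]; exact hv)
  have h4 := theK_free_aux hT g s hs k⁻¹ v (hx v hv) h3
  exact inv_eq_one.mp h4

lemma theK_card {T : ℕ} (hT : 0 < T) (g : G) (s : Finset (G × W T))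
    (hs : s ∈ (theK T hT g).K.faces) : s.card ≤ 3 := by
  classical
  obtain ⟨_, h, S, hS, hm⟩ := hs
  obtain ⟨p, q, r, rfl⟩ := pieces_three hS
  have hsub : s.image (fun v => (h * v.1, v.2)) ⊆ ({p, q, r} : Finset (G × W T)) := by
    intro w hw
    rw [Finset.mem_image] at hw
    obtain ⟨v, hv, rfl⟩ := hw
    have := hm v hv
    simpa using this
  have hinj : Function.Injective (fun v : G × W T => (h * v.1, v.2)) := by
    intro a b hab
    have hab' : (h * a.1, a.2) = (h * b.1, b.2) := hab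
    rw [Prod.mk.injEq] at hab'
    exact Prod.ext (mul_left_cancel hab'.1) hab'.2
  calc s.card = (s.image (fun v => (h * v.1, v.2))).card :=
        (Finset.card_image_of_injective _ hinj).symm
    _ ≤ ({p, q, r} : Finset (G × W T)).card := Finset.card_le_card hsub
    _ ≤ 3 := Finset.card_le_three

end Pool.Agent.Helper5.CrossIndex
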