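import Mathlib

set_option autoImplicit false

/-!
Finite simplicial complexes and posets with a group action, geometric realisation, mapping index
and cross-index.
-/

namespace Pool.Agent.Helper5.CrossIndex

universe u

/-- A finite simplicial complex (Mathlib's `AbstractSimplicialComplex` on a finite vertex type `V`)
with an action of the group `G` on the vertices mapping simplices to simplices. -/
structure GComplex (G : Type u) [Group G] where
  /-- the vertices -/
  V : Type u
  /-- there are finitely many vertices -/
  fin : Fintype V
  /-- the action on the vertices -/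
  act : MulAction G V
  /-- the complex -/
  K : AbstractSimplicialComplex V
  /-- translates of simplices are simplices -/
  map_mem : ∀ (g : G) (s : Finset V), s ∈ K.faces →
    s.map (MulAction.toPerm g).toEmbedding ∈ K.faces

/-- A finite poset with an order-preserving action of the group `G`. -/
structure GPoset (G : Type u) [Group G] where
  /-- the elements -/
  P : Type u
  /-- the order -/
  ord : PartialOrder P
  /-- there are finitely many elements -/
  fin : Fintype P
  /-- the action -/
  act : MulAction G P
  /-- the action preserves the order -/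
  smul_le : ∀ (g : G) (x y : P), x ≤ y → g • x ≤ g • y

attribute [instance] GComplex.fin GComplex.act GPoset.ord GPoset.fin GPoset.act

variable {G : Type u} [Group G]

/-- The geometric realisation of `X`, as a subspace of the finite-dimensional space `X.V → ℝ`:
barycentric coordinates, i.e. non-negative functions with sum `1` whose support is contained in a
simplex, with the subspace topology. -/
abbrev GComplex.Real (X : GComplex G) : Type u :=
  {x : X.V → ℝ // (∀ v, 0 ≤ x v) ∧ ∑ v, x v = 1 ∧ ∃ s ∈ X.K.faces, ∀ v, x v ≠ 0 → v ∈ s}

/-- the induced action on the realisation: `(g • x) v = x (g⁻¹ • v)` -/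
instance (X : GComplex G) : MulAction G X.Real where
  smul g x := ⟨fun v => x.1 (g⁻¹ • v), fun _ => x.2.1 _,
    (Equiv.sum_comp (MulAction.toPerm g⁻¹) x.1).trans x.2.2.1, by
    obtain ⟨s, hs, hx⟩ := x.2.2.2
    refine ⟨s.map (MulAction.toPerm g).toEmbedding, X.map_mem g s hs, fun v hv => ?_⟩
    rw [Finset.mem_map]
    exact ⟨g⁻¹ • v, hx _ hv, by simp⟩⟩
  one_smul x := by
    apply Subtype.ext
    funext v
    show x.1 ((1 : G)⁻¹ • v) = x.1 v
    simp
  mul_smul g h x := by
    apply Subtype.ext
    funext v
    show x.1 ((g * h)⁻¹ • v) = x.1 (h⁻¹ • g⁻¹ • v)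
    rw [mul_inv_rev, mul_smul]

/-- `X` is a free `G`-simplicial complex: the action on the realisation is free. -/
def GComplex.Free (X : GComplex G) : Prop := ∀ (g : G) (x : X.Real), g • x = x → g = 1

/-- `E_k G`, the `(k+1)`-fold join of the finite discrete set `G`: formal convex combinations
`∑ i, t i • h i` over `i = 0, …, k` with `h i ∈ G`, encoded by the function on `G × {0, …, k}` with
value `t i` at `(h i, i)` and `0` elsewhere, with the subspace topology. -/
abbrev Join (G : Type u) [Group G] [Fintype G] (k : ℕ) : Type u :=
  {x : G × Fin (k + 1) → ℝ // (∀ v, 0 ≤ x v) ∧ ∑ v, x v = 1 ∧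
    ∀ (i : Fin (k + 1)) (g h : G), x (g, i) ≠ 0 → x (h, i) ≠ 0 → g = h}

/-- the diagonal action on the join, `g • (∑ i, t i • h i) = ∑ i, t i • (g * h i)` -/
instance (G : Type u) [Group G] [Fintype G] (k : ℕ) : MulAction G (Join G k) where
  smul g x := ⟨fun v => x.1 (g⁻¹ * v.1, v.2), fun _ => x.2.1 _,
    (Equiv.sum_comp ((Equiv.mulLeft g⁻¹).prodCongr (Equiv.refl _)) x.1).trans x.2.2.1,
    fun i a b ha hb => by
      have := x.2.2.2 i _ _ ha hb
      exact mul_left_cancel this⟩
  one_smul x := by
    apply Subtype.ext
    funext v
    show x.1 ((1 : G)⁻¹ * v.1, v.2) = x.1 v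
    simp
  mul_smul g h x := by
    apply Subtype.ext
    funext v
    show x.1 ((g * h)⁻¹ * v.1, v.2) = x.1 (h⁻¹ * (g⁻¹ * v.1), v.2)
    rw [mul_inv_rev, mul_assoc]

/-- there is a continuous `G`-equivariant map from the realisation of `X` to `E_k G` -/
def GComplex.MapsTo [Fintype G] (X : GComplex G) (k : ℕ) : Prop :=
  ∃ f : X.Real → Join G k, Continuous f ∧ ∀ (g : G) (x : X.Real), f (g • x) = g • f x

/-- `ind X = k`: `k` is the least number such that there is a continuous `G`-equivariant map
from the realisation of `X` to `E_k G`. -/
def GComplex.IndEq [Fintype G] (X : GComplex G) (k : ℕ) : Prop :=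
  IsLeast {j : ℕ | X.MapsTo j} k

/-- the `G`-poset `Q_n G` on `G × {0, …, n}` with `g • (h, i) = (g * h, i)` and
`(g, i) < (h, j)` iff `i < j` -/
def QPoset (G : Type u) [Group G] [Fintype G] (n : ℕ) : GPoset G where
  P := G × Fin (n + 1)
  ord :=
    { le := fun x y => x = y ∨ x.2 < y.2
      le_refl := fun _ => Or.inl rfl
      le_trans := fun x y z hxy hyz => by
        rcases hxy with rfl | hxy
        · exact hyz
        · rcases hyz with rfl | hyz
          · exact Or.inr hxy
          · exact Or.inr (hxy.trans hyz)
      le_antisymm := fun x y hxy hyx => by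
        rcases hxy with h | hxy
        · exact h
        · rcases hyx with h | hyx
          · exact h.symm
          · exact absurd (hxy.trans hyx) (lt_irrefl _) }
  fin := inferInstance
  act :=
    { smul := fun g x => (g * x.1, x.2)
      one_smul := fun x => by
        show (1 * x.1, x.2) = x
        rw [one_mul]
      mul_smul := fun g h x => by
        show (g * h * x.1, x.2) = (g * (h * x.1), x.2)
        rw [mul_assoc] }
  smul_le := fun g x y hxy => by
    rcases hxy with rfl | hxy
    · exact Or.inl rfl
    · exact Or.inr hxy

/-- there is a `G`-map (an order-preserving equivariant map) from `P` to `R` -/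
def GPoset.MapsTo (P R : GPoset G) : Prop :=
  ∃ f : P.P → R.P, (∀ x y, x ≤ y → f x ≤ f y) ∧ ∀ (g : G) (x : P.P), f (g • x) = g • f x

/-- `Xind P = n`: `n` is the least number such that there is a `G`-map from `P` to `Q_n G`. -/
def GPoset.XindEq [Fintype G] (P : GPoset G) (n : ℕ) : Prop :=
  IsLeast {j : ℕ | P.MapsTo (QPoset G j)} n

/-- the face poset of `X`: nonempty simplices ordered by inclusion, with the induced action -/
noncomputable def GComplex.facePoset (X : GComplex G) : GPoset G where
  P := {s : Finset X.V // s ∈ X.K.faces}
  ord := inferInstance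
  fin := by classical exact Fintype.ofFinite _
  act :=
    { smul := fun g s => ⟨s.1.map (MulAction.toPerm g).toEmbedding, X.map_mem g s.1 s.2⟩
      one_smul := fun s => by
        apply Subtype.ext
        show s.1.map (MulAction.toPerm (1 : G)).toEmbedding = s.1
        ext v
        simp
      mul_smul := fun g h s => by
        apply Subtype.ext
        show s.1.map (MulAction.toPerm (g * h)).toEmbedding =
          (s.1.map (MulAction.toPerm h).toEmbedding).map (MulAction.toPerm g).toEmbedding
        rw [Finset.map_map]
        congr 1
        ext v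
        simp [mul_smul] }
  smul_le := fun g x y hxy => by
    show x.1.map (MulAction.toPerm g).toEmbedding ≤ y.1.map (MulAction.toPerm g).toEmbedding
    exact Finset.map_subset_map.mpr hxy

/-- the order complex of `P`: the simplices are the nonempty chains -/
def GPoset.orderComplex (P : GPoset G) : GComplex G where
  V := P.P
  fin := P.fin
  act := P.act
  K :=
    { faces := {s : Finset P.P | s.Nonempty ∧ IsChain (· ≤ ·) (s : Set P.P)}
      isRelLowerSet_faces := fun {s} hs => ⟨hs.1, fun {t} hts ht =>
        ⟨ht, hs.2.mono (Finset.coe_subset.mpr hts)⟩⟩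
      singleton_mem := fun v => ⟨Finset.singleton_nonempty v, by simp⟩ }
  map_mem := fun g s hs => by
    refine ⟨hs.1.map, ?_⟩
    intro x hx y hy hxy
    rw [Finset.mem_coe, Finset.mem_map] at hx hy
    obtain ⟨a, ha, rfl⟩ := hx
    obtain ⟨b, hb, rfl⟩ := hy
    have hab : a ≠ b := fun h => hxy (by rw [h])
    rcases hs.2 (Finset.mem_coe.mpr ha) (Finset.mem_coe.mpr hb) hab with h | h
    · exact Or.inl (P.smul_le g _ _ h)
    · exact Or.inr (P.smul_le g _ _ h)

/-- the barycentric subdivision -/
noncomputable def GComplex.sd (X : GComplex G) : GComplex G := X.facePoset.orderComplex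

end Pool.Agent.Helper5.CrossIndex
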