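import Pool.Agent.Helper5.CrossIndex.Complex
import Pool.Agent.Helper5.CrossIndex.Cochain

set_option autoImplicit false

namespace Pool.Agent.Helper5.CrossIndex

universe u

variable {G : Type u} [Group G] [Fintype G]

lemma exists_face {T : ℕ} (hT : 0 < T) (g : G) (S : Set (G × W T)) (hS : S ∈ pieces T g)
    (p q r : G × W T) (hS3 : S = {p, q, r}) :
    ∃ s ∈ (theK T hT g).K.faces, p ∈ (s : Finset (G × W T)) ∧ q ∈ (s : Finset (G × W T)) ∧
      r ∈ (s : Finset (G × W T)) := by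
  classical
  have m1 : p ∈ ({p, q, r} : Finset (G × W T)) := by simp
  have m2 : q ∈ ({p, q, r} : Finset (G × W T)) := by simp
  have m3 : r ∈ ({p, q, r} : Finset (G × W T)) := by simp
  refine ⟨({p, q, r} : Finset (G × W T)), ⟨⟨p, m1⟩, 1, S, hS, ?_⟩, m1, m2, m3⟩
  intro v hv
  rw [one_mul, hS3]
  have hv' : v ∈ ({p, q, r} : Finset (G × W T)) := hv
  simpa using hv'

lemma not_hasEdge (g : G) (hg : g ≠ 1) (M : ℤ) (n : ℕ) (hn : 4 * M < n) (hT : 0 < 2 * n) :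
    ¬ HasEdge g (orderOf g) M (theK (2 * n) hT g) := by
  rintro ⟨lam, c, h1, h2, h3⟩
  -- the three kinds of simplices
  have f1 : ∀ t < 2 * n, ∃ s ∈ (theK (2 * n) hT g).K.faces,
      bv G (2 * n) t ∈ (s : Finset (G × W (2 * n))) ∧
      bv G (2 * n) (t + 1) ∈ (s : Finset (G × W (2 * n))) ∧
      cv (2 * n) g (t + 1) ∈ (s : Finset (G × W (2 * n))) := fun t ht =>
    exists_face hT g _ ⟨t, ht, Or.inl rfl⟩ _ _ _ rfl
  have f2 : ∀ t < 2 * n, ∃ s ∈ (theK (2 * n) hT g).K.faces,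
      bv G (2 * n) t ∈ (s : Finset (G × W (2 * n))) ∧
      cv (2 * n) g t ∈ (s : Finset (G × W (2 * n))) ∧
      cv (2 * n) g (t + 1) ∈ (s : Finset (G × W (2 * n))) := fun t ht =>
    exists_face hT g _ ⟨t, ht, Or.inr (Or.inl rfl)⟩ _ _ _ rfl
  have f3 : ∀ t < 2 * n, ∃ s ∈ (theK (2 * n) hT g).K.faces,
      av G (2 * n) ∈ (s : Finset (G × W (2 * n))) ∧
      bv G (2 * n) t ∈ (s : Finset (G × W (2 * n))) ∧
      bv G (2 * n) (t + 1) ∈ (s : Finset (G × W (2 * n))) := fun t ht =>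
    exists_face hT g _ ⟨t, ht, Or.inr (Or.inr rfl)⟩ _ _ _ rfl
  have k1 : ∀ t < 2 * n, c (av G (2 * n)) (bv G (2 * n) (t + 1)) =
      c (av G (2 * n)) (bv G (2 * n) t) + c (bv G (2 * n) t) (bv G (2 * n) (t + 1)) := by
    intro t ht
    obtain ⟨s, hs, ha, hb, hc⟩ := f3 t ht
    exact h3 _ _ _ s hs ha hb hc
  have k2 : ∀ t < 2 * n, c (bv G (2 * n) t) (cv (2 * n) g (t + 1)) =
      c (bv G (2 * n) t) (bv G (2 * n) (t + 1)) +
      c (bv G (2 * n) (t + 1)) (cv (2 * n) g (t + 1)) := by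
    intro t ht
    obtain ⟨s, hs, ha, hb, hc⟩ := f1 t ht
    exact h3 _ _ _ s hs ha hb hc
  have k3 : ∀ t < 2 * n, c (bv G (2 * n) t) (cv (2 * n) g (t + 1)) =
      c (bv G (2 * n) t) (cv (2 * n) g t) + c (cv (2 * n) g t) (cv (2 * n) g (t + 1)) := by
    intro t ht
    obtain ⟨s, hs, ha, hb, hc⟩ := f2 t ht
    exact h3 _ _ _ s hs ha hb hc
  have hcv : ∀ t, cv (2 * n) g (t + 2) = (g * (cv (2 * n) g t).1, (cv (2 * n) g t).2) := by
    intro t
    show (g ^ ((t + 2) / 2), cW (2 * n) (t + 2)) = (g * g ^ (t / 2), cW (2 * n) t)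
    have e1 : (t + 2) / 2 = t / 2 + 1 := by omega
    have e2 : par (t + 2) = par t := by
      apply Fin.ext
      show (t + 2) % 2 = t % 2
      omega
    rw [e1, pow_succ', cW, cW, e2]
  have k4 : ∀ t < 2 * n, c (cv (2 * n) g (t + 2)) (cv (2 * n) g (t + 3)) =
      c (cv (2 * n) g t) (cv (2 * n) g (t + 1)) := by
    intro t ht
    obtain ⟨s, hs, ha, hb, hc⟩ := f2 t ht
    have h := (h2 _ _ s hs hb hc).2.2
    have e3 : t + 3 = t + 1 + 2 := rfl
    rw [e3, hcv t, hcv (t + 1)]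
    exact h
  have k5 : (((c (cv (2 * n) g 0) (cv (2 * n) g 1) + c (cv (2 * n) g 1) (cv (2 * n) g 2) : ℤ)) :
      ZMod (orderOf g)) = 1 := by
    obtain ⟨s, hs, ha, hb, hc⟩ := f2 0 (by omega)
    obtain ⟨s', hs', ha', hb', hc'⟩ := f2 1 (by omega)
    have e1 := (h2 _ _ s hs hb hc).1
    have e2 := (h2 _ _ s' hs' hb' hc').1
    have e3 : lam (cv (2 * n) g 2) = lam (cv (2 * n) g 0) + 1 := by
      rw [hcv 0]
      exact h1 _
    have e1' : (((c (cv (2 * n) g 0) (cv (2 * n) g 1)) : ℤ) : ZMod (orderOf g)) =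
      lam (cv (2 * n) g 1) - lam (cv (2 * n) g 0) := e1
    have e2' : (((c (cv (2 * n) g 1) (cv (2 * n) g 2)) : ℤ) : ZMod (orderOf g)) =
      lam (cv (2 * n) g 2) - lam (cv (2 * n) g 1) := e2
    rw [Int.cast_add, e1', e2', e3]
    ring
  have k6 : ∀ t ≤ 2 * n, |c (av G (2 * n)) (bv G (2 * n) t)| ≤ M ∧
      |c (bv G (2 * n) t) (cv (2 * n) g t)| ≤ M := by
    intro t ht
    rcases Nat.lt_or_ge t (2 * n) with h | h
    · obtain ⟨s, hs, ha, hb, hc⟩ := f3 t h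
      obtain ⟨s', hs', ha', hb', hc'⟩ := f2 t h
      exact ⟨(h2 _ _ s hs ha hb).2.1, (h2 _ _ s' hs' ha' hb').2.1⟩
    · have ht2 : t = (2 * n - 1) + 1 := by omega
      obtain ⟨s, hs, ha, hb, hc⟩ := f3 (2 * n - 1) (by omega)
      obtain ⟨s', hs', ha', hb', hc'⟩ := f1 (2 * n - 1) (by omega)
      rw [ht2]
      exact ⟨(h2 _ _ s hs ha hc).2.1, (h2 _ _ s' hs' hb' hc').2.1⟩
  -- the telescoping quantity
  have tel : ∀ t < 2 * n, c (av G (2 * n)) (bv G (2 * n) (t + 1)) +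
      c (bv G (2 * n) (t + 1)) (cv (2 * n) g (t + 1)) =
      c (av G (2 * n)) (bv G (2 * n) t) + c (bv G (2 * n) t) (cv (2 * n) g t) +
      c (cv (2 * n) g t) (cv (2 * n) g (t + 1)) := by
    intro t ht
    have := k1 t ht
    have := k2 t ht
    have := k3 t ht
    linarith
  have per : ∀ j < n, c (cv (2 * n) g (2 * j)) (cv (2 * n) g (2 * j + 1)) =
        c (cv (2 * n) g 0) (cv (2 * n) g 1) ∧
      c (cv (2 * n) g (2 * j + 1)) (cv (2 * n) g (2 * j + 2)) =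
        c (cv (2 * n) g 1) (cv (2 * n) g 2) := by
    intro j
    induction j with
    | zero => intro _; exact ⟨rfl, rfl⟩
    | succ j ih =>
      intro hj
      obtain ⟨i1, i2⟩ := ih (by omega)
      have e1 := k4 (2 * j) (by omega)
      have e2 := k4 (2 * j + 1) (by omega)
      have d1 : 2 * (j + 1) = 2 * j + 2 := by ring
      rw [d1]
      exact ⟨e1.trans i1, e2.trans i2⟩
  have fin : ∀ j ≤ n, c (av G (2 * n)) (bv G (2 * n) (2 * j)) +
      c (bv G (2 * n) (2 * j)) (cv (2 * n) g (2 * j)) =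
      c (av G (2 * n)) (bv G (2 * n) 0) + c (bv G (2 * n) 0) (cv (2 * n) g 0) +
      j * (c (cv (2 * n) g 0) (cv (2 * n) g 1) + c (cv (2 * n) g 1) (cv (2 * n) g 2)) := by
    intro j
    induction j with
    | zero => intro _; simp
    | succ j ih =>
      intro hj
      have i0 := ih (by omega)
      obtain ⟨p1, p2⟩ := per j (by omega)
      have t1 := tel (2 * j) (by omega)
      have t2 := tel (2 * j + 1) (by omega)
      have d1 : 2 * (j + 1) = 2 * j + 1 + 1 := by ring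
      rw [d1, t2, t1, p1, p2, i0]
      push_cast
      ring
  have hfin := fin n le_rfl
  obtain ⟨b1, b2⟩ := k6 (2 * n) le_rfl
  obtain ⟨b3, b4⟩ := k6 0 (by omega)
  set κ := c (cv (2 * n) g 0) (cv (2 * n) g 1) + c (cv (2 * n) g 1) (cv (2 * n) g 2) with hκ
  have hκ0 : κ ≠ 0 := by
    intro h0
    rw [h0] at k5
    simp only [Int.cast_zero] at k5
    have hm : 1 < orderOf g := by
      have : 0 < orderOf g := orderOf_pos g
      have h' : orderOf g ≠ 1 := fun h => hg (orderOf_eq_one_iff.mp h)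
      omega
    have : Fact (1 < orderOf g) := ⟨hm⟩
    exact zero_ne_one k5
  have hκ1 : 1 ≤ |κ| := Int.one_le_abs hκ0
  have hn0 : (0 : ℤ) ≤ n := by positivity
  have habs : |(n : ℤ) * κ| ≤ 4 * M := by
    have e : (n : ℤ) * κ = c (av G (2 * n)) (bv G (2 * n) (2 * n)) +
      c (bv G (2 * n) (2 * n)) (cv (2 * n) g (2 * n)) - c (av G (2 * n)) (bv G (2 * n) 0) -
      c (bv G (2 * n) 0) (cv (2 * n) g 0) := by
      rw [hfin]; ring
    rw [e]
    rw [abs_le] at b1 b2 b3 b4 ⊢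
    constructor <;> linarith [b1.1, b1.2, b2.1, b2.2, b3.1, b3.2, b4.1, b4.2]
  rw [abs_mul, abs_of_nonneg hn0] at habs
  have : (n : ℤ) * 1 ≤ n * |κ| := mul_le_mul_of_nonneg_left hκ1 hn0
  linarith

end Pool.Agent.Helper5.CrossIndex
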