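import Pool.Agent.Helper5.CrossIndex.Complex

set_option autoImplicit false

namespace Pool.Agent.Helper5.CrossIndex

universe u

/-- hat functions -/
noncomputable def psi (Y θ : ℝ) (s : ℕ) : ℝ := max 0 (Y - |θ - s * Y|)

lemma psi_nonneg (Y θ : ℝ) (s : ℕ) : 0 ≤ psi Y θ s := le_max_left _ _

lemma psi_ne_zero {Y θ : ℝ} {s : ℕ} (h : psi Y θ s ≠ 0) : |θ - s * Y| < Y := by
  by_contra hcon
  push Not at hcon
  exact h (max_eq_left (by linarith))

lemma psi_sum (Y θ : ℝ) (hY : 0 ≤ Y) (hθ : 0 ≤ θ) (T : ℕ) :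
    ∑ s ∈ Finset.range (T + 1), psi Y θ s = min Y (max 0 ((T + 1 : ℕ) * Y - θ)) := by
  induction T with
  | zero =>
    simp only [zero_add, Finset.sum_range_one, psi]
    push_cast
    rw [zero_mul, sub_zero, abs_of_nonneg hθ, one_mul]
    rw [min_eq_right]
    exact max_le hY (by linarith)
  | succ T ih =>
    rw [Finset.sum_range_succ, ih, psi]
    push_cast
    have e1 : ((T : ℝ) + 1 + 1) * Y - θ = (((T : ℝ) + 1) * Y - θ) + Y := by ring
    have e2 : θ - ((T : ℝ) + 1) * Y = -(((T : ℝ) + 1) * Y - θ) := by ring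
    rw [e1, e2, abs_neg]
    set d := ((T : ℝ) + 1) * Y - θ with hd
    rcases le_total 0 d with h0 | h0
    · rw [abs_of_nonneg h0, max_eq_right h0]
      rw [max_eq_right (by linarith : (0 : ℝ) ≤ d + Y), min_eq_left (by linarith : Y ≤ d + Y)]
      rcases le_total d Y with h1 | h1
      · rw [min_eq_right h1, max_eq_right (by linarith)]; ring
      · rw [min_eq_left h1, max_eq_left (by linarith)]; ring
    · rw [abs_of_nonpos h0, max_eq_left h0, min_eq_right hY, zero_add]
      rw [min_eq_right]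
      · congr 1; ring
      · exact max_le hY (by linarith)

lemma psi_sum' {Y θ : ℝ} (hY : 0 ≤ Y) (hθ : 0 ≤ θ) {T : ℕ} (hT : θ ≤ T * Y) :
    ∑ s ∈ Finset.range (T + 1), psi Y θ s = Y := by
  rw [psi_sum Y θ hY hθ T]
  push_cast
  rw [max_eq_right (by nlinarith), min_eq_left (by nlinarith)]

lemma psi_close {Y θ : ℝ} {s s' : ℕ} (h : psi Y θ s ≠ 0) (h' : psi Y θ s' ≠ 0) :
    s ≤ s' + 1 := by
  have h1 := psi_ne_zero h
  have h2 := psi_ne_zero h'
  rw [abs_lt] at h1 h2
  have hY : 0 < Y := by linarith [h1.1, h1.2]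
  by_contra hcon
  push Not at hcon
  have h3 : ((s' : ℝ) + 2) ≤ s := by exact_mod_cast hcon
  nlinarith [h1.1, h1.2, h2.1, h2.2]

lemma psi_loc {Y θ : ℝ} {s t : ℕ} (h : psi Y θ s ≠ 0) (h1 : t * Y ≤ θ) (h2 : θ ≤ (t + 1) * Y) :
    s = t ∨ s = t + 1 := by
  have h3 := psi_ne_zero h
  rw [abs_lt] at h3
  have hY : 0 < Y := by linarith [h3.1, h3.2]
  by_contra hcon
  push Not at hcon
  rcases Nat.lt_or_ge s t with h4 | h4
  · have h5 : (s : ℝ) + 1 ≤ t := by exact_mod_cast h4
    nlinarith [h3.1, h3.2]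
  · have h6 : t + 2 ≤ s := by
      have := hcon.1
      have := hcon.2
      omega
    have h5 : (t : ℝ) + 2 ≤ s := by exact_mod_cast h6
    nlinarith [h3.1, h3.2]

variable {G : Type u} [Group G]

/-- mass on `a` and the `b_t` over `h` -/
def Ymass (T : ℕ) (x : G × W T → ℝ) (h : G) : ℝ :=
  x (h, Sum.inr none) + ∑ t : Fin (T + 1), x (h, Sum.inr (some t))

/-- position -/
def theta (T : ℕ) (x : G × W T → ℝ) (h : G) : ℝ :=
  ∑ t : Fin (T + 1), ((t : ℕ) : ℝ) * x (h, Sum.inr (some t))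

/-- the map -/
noncomputable def F (T : ℕ) (g : G) (x : G × W T → ℝ) (v : G × Fin 2) : ℝ :=
  x (v.1, Sum.inl v.2) + ∑ s ∈ Finset.range (T + 1),
    if par s = v.2 then psi (Ymass T x (v.1 * (g ^ (s / 2))⁻¹))
      (theta T x (v.1 * (g ^ (s / 2))⁻¹)) s else 0

lemma Ymass_shift (T : ℕ) (h : G) (x : G × W T → ℝ) (k : G) :
    Ymass T (fun v => x (h * v.1, v.2)) k = Ymass T x (h * k) := rfl

lemma theta_shift (T : ℕ) (h : G) (x : G × W T → ℝ) (k : G) :
    theta T (fun v => x (h * v.1, v.2)) k = theta T x (h * k) := rfl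

lemma F_shift (T : ℕ) (g : G) (h : G) (x : G × W T → ℝ) (v : G × Fin 2) :
    F T g (fun v => x (h * v.1, v.2)) v = F T g x (h * v.1, v.2) := by
  unfold F
  congr 1
  apply Finset.sum_congr rfl
  intro s _
  rw [Ymass_shift, theta_shift, ← mul_assoc]

lemma F_nonneg (T : ℕ) (g : G) (x : G × W T → ℝ) (hx : ∀ v, 0 ≤ x v) (v : G × Fin 2) :
    0 ≤ F T g x v := by
  refine add_nonneg (hx _) (Finset.sum_nonneg fun s _ => ?_)
  split_ifs
  · exact psi_nonneg _ _ _
  · exact le_rfl

omit [Group G] in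
lemma continuous_Ymass (T : ℕ) (h : G) : Continuous (fun x : G × W T → ℝ => Ymass T x h) := by
  unfold Ymass; fun_prop

omit [Group G] in
lemma continuous_theta (T : ℕ) (h : G) : Continuous (fun x : G × W T → ℝ => theta T x h) := by
  unfold theta; fun_prop

lemma continuous_F (T : ℕ) (g : G) : Continuous (F T g) := by
  refine continuous_pi fun v => ?_
  unfold F
  refine Continuous.add (continuous_apply _) (continuous_finsetSum _ fun s _ => ?_)
  split_ifs
  · unfold psi
    have h1 := continuous_Ymass (G := G) T (v.1 * (g ^ (s / 2))⁻¹)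
    have h2 := continuous_theta (G := G) T (v.1 * (g ^ (s / 2))⁻¹)
    exact continuous_const.max (h1.sub ((h2.sub (continuous_const.mul h1)).abs))
  · exact continuous_const

omit [Group G] in
lemma Ymass_nonneg (T : ℕ) (x : G × W T → ℝ) (hx : ∀ v, 0 ≤ x v) (h : G) : 0 ≤ Ymass T x h :=
  add_nonneg (hx _) (Finset.sum_nonneg fun _ _ => hx _)

omit [Group G] in
lemma theta_nonneg (T : ℕ) (x : G × W T → ℝ) (hx : ∀ v, 0 ≤ x v) (h : G) : 0 ≤ theta T x h :=
  Finset.sum_nonneg fun _ _ => mul_nonneg (Nat.cast_nonneg _) (hx _)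

omit [Group G] in
lemma theta_le (T : ℕ) (x : G × W T → ℝ) (hx : ∀ v, 0 ≤ x v) (h : G) :
    theta T x h ≤ T * Ymass T x h := by
  unfold theta Ymass
  rw [mul_add, Finset.mul_sum]
  have h1 : 0 ≤ (T : ℝ) * x (h, Sum.inr none) := mul_nonneg (Nat.cast_nonneg _) (hx _)
  have h2 : ∑ t : Fin (T + 1), ((t : ℕ) : ℝ) * x (h, Sum.inr (some t)) ≤
      ∑ t : Fin (T + 1), (T : ℝ) * x (h, Sum.inr (some t)) := by
    refine Finset.sum_le_sum fun t _ => mul_le_mul_of_nonneg_right ?_ (hx _)
    have := t.2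
    exact_mod_cast Nat.lt_succ_iff.mp t.2
  linarith

lemma F_sum [Fintype G] (T : ℕ) (g : G) (x : G × W T → ℝ) (hx : ∀ v, 0 ≤ x v) :
    ∑ v, F T g x v = ∑ v, x v := by
  unfold F
  rw [Finset.sum_add_distrib, Finset.sum_comm]
  have h1 : ∀ s ∈ Finset.range (T + 1), ∑ v : G × Fin 2, (if par s = v.2 then
      psi (Ymass T x (v.1 * (g ^ (s / 2))⁻¹)) (theta T x (v.1 * (g ^ (s / 2))⁻¹)) s else 0) =
      ∑ h : G, psi (Ymass T x h) (theta T x h) s := by
    intro s _
    rw [Fintype.sum_prod_type]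
    have h2 : ∀ k : G, ∑ i : Fin 2, (if par s = i then
        psi (Ymass T x (k * (g ^ (s / 2))⁻¹)) (theta T x (k * (g ^ (s / 2))⁻¹)) s else 0) =
        psi (Ymass T x (k * (g ^ (s / 2))⁻¹)) (theta T x (k * (g ^ (s / 2))⁻¹)) s := by
      intro k
      rw [Finset.sum_ite_eq]
      simp
    simp only [h2]
    exact Equiv.sum_comp (Equiv.mulRight (g ^ (s / 2))⁻¹)
      (fun h => psi (Ymass T x h) (theta T x h) s)
  rw [Finset.sum_congr rfl h1, Finset.sum_comm]
  have h3 : ∀ h : G, ∑ s ∈ Finset.range (T + 1), psi (Ymass T x h) (theta T x h) s =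
      Ymass T x h := fun h =>
    psi_sum' (Ymass_nonneg T x hx h) (theta_nonneg T x hx h) (theta_le T x hx h)
  simp only [h3]
  rw [Fintype.sum_prod_type, Fintype.sum_prod_type, ← Finset.sum_add_distrib]
  refine Finset.sum_congr rfl fun h _ => ?_
  rw [Fintype.sum_sum_type, Fintype.sum_option]
  rfl

/-- localisation for a point supported in an untranslated piece -/
lemma F_loc {T : ℕ} {g : G} {S : Set (G × W T)} (hS : S ∈ pieces T g) (x : G × W T → ℝ)
    (hx : ∀ v, 0 ≤ x v) (hxS : ∀ v, x v ≠ 0 → v ∈ S) {k k' : G} {i : Fin 2}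
    (h : F T g x (k, i) ≠ 0) (h' : F T g x (k', i) ≠ 0) : k = k' := by
  -- reduce to a statement on indices
  suffices hQ : ∃ Q : ℕ → Prop, (∀ s s', Q s → Q s' → s ≤ s' + 1) ∧
      ∀ (k : G) (i : Fin 2), F T g x (k, i) ≠ 0 → ∃ s, Q s ∧ k = g ^ (s / 2) ∧ par s = i by
    obtain ⟨Q, hQ1, hQ2⟩ := hQ
    obtain ⟨s, hs1, hs2, hs3⟩ := hQ2 k i h
    obtain ⟨s', hs1', hs2', hs3'⟩ := hQ2 k' i h'
    have e1 := hQ1 s s' hs1 hs1'
    have e2 := hQ1 s' s hs1' hs1
    have e3 := par_eq (hs3.trans hs3'.symm)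
    have e4 : s = s' := by omega
    rw [hs2, hs2', e4]
  -- `a` and `b` vertices lie over `1`
  have hone : ∀ (h : G) (w : Option (Fin (T + 1))), x (h, Sum.inr w) ≠ 0 → h = 1 := by
    intro h w hne
    have hmem := hxS _ hne
    obtain ⟨t, ht, rfl | rfl | rfl⟩ := hS
    · rcases hmem with h1 | h1 | h1
      · exact congrArg Prod.fst h1
      · exact congrArg Prod.fst h1
      · exact absurd (congrArg Prod.snd h1) (fun h2 => Sum.inr_ne_inl h2)
    · rcases hmem with h1 | h1 | h1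
      · exact congrArg Prod.fst h1
      · exact absurd (congrArg Prod.snd h1) (fun h2 => Sum.inr_ne_inl h2)
      · exact absurd (congrArg Prod.snd h1) (fun h2 => Sum.inr_ne_inl h2)
    · rcases hmem with h1 | h1 | h1
      · exact congrArg Prod.fst h1
      · exact congrArg Prod.fst h1
      · exact congrArg Prod.fst h1
  have hY0 : ∀ h : G, h ≠ 1 → Ymass T x h = 0 := by
    intro h hne
    have e : ∀ w, x (h, Sum.inr w) = 0 := fun w => by
      by_contra hc
      exact hne (hone h w hc)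
    unfold Ymass
    simp [e]
  have hpsi : ∀ (k : G) (s : ℕ), psi (Ymass T x (k * (g ^ (s / 2))⁻¹))
      (theta T x (k * (g ^ (s / 2))⁻¹)) s ≠ 0 → k = g ^ (s / 2) ∧
      psi (Ymass T x 1) (theta T x 1) s ≠ 0 := by
    intro k s hne
    have h1 : k * (g ^ (s / 2))⁻¹ = 1 := by
      by_contra hc
      have h2 := psi_ne_zero hne
      rw [hY0 _ hc] at h2
      exact absurd h2 (not_lt.mpr (abs_nonneg _))
    rw [h1] at hne
    exact ⟨mul_inv_eq_one.mp h1, hne⟩
  have hcase : ∀ (k : G) (i : Fin 2), F T g x (k, i) ≠ 0 → x (k, Sum.inl i) ≠ 0 ∨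
      ∃ s, psi (Ymass T x 1) (theta T x 1) s ≠ 0 ∧ k = g ^ (s / 2) ∧ par s = i := by
    intro k i hne
    by_contra hcon
    push Not at hcon
    obtain ⟨c1, c2⟩ := hcon
    apply hne
    unfold F
    rw [c1, zero_add]
    apply Finset.sum_eq_zero
    intro s _
    split_ifs with hpar
    · by_contra hc
      obtain ⟨d1, d2⟩ := hpsi k s hc
      exact c2 s d2 d1 hpar
    · rfl
  have hnn := hx
  obtain ⟨t, ht, hSS⟩ := hS
  -- the pieces with `c` vertices
  have hAB : (∀ v ∈ S, v = bv G T t ∨ v = bv G T (t + 1) ∨ v = cv T g t ∨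
      v = cv T g (t + 1)) → ∃ Q : ℕ → Prop, (∀ s s', Q s → Q s' → s ≤ s' + 1) ∧
      ∀ (k : G) (i : Fin 2), F T g x (k, i) ≠ 0 → ∃ s, Q s ∧ k = g ^ (s / 2) ∧ par s = i := by
    intro hSv
    have ha : x (1, Sum.inr none) = 0 := by
      by_contra hc
      rcases hSv _ (hxS _ hc) with h1 | h1 | h1 | h1
      · exact bW_ne_aW (congrArg Prod.snd h1).symm
      · exact bW_ne_aW (congrArg Prod.snd h1).symm
      · exact Sum.inr_ne_inl (congrArg Prod.snd h1)
      · exact Sum.inr_ne_inl (congrArg Prod.snd h1)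
    have hb : ∀ t' : Fin (T + 1), x (1, Sum.inr (some t')) ≠ 0 → t'.1 = t ∨ t'.1 = t + 1 := by
      intro t' hc
      rcases hSv _ (hxS _ hc) with h1 | h1 | h1 | h1
      · left
        have h2 : (Sum.inr (some t') : W T) = bW T t := congrArg Prod.snd h1
        have h3 := Option.some_injective _ (Sum.inr_injective h2)
        rw [h3]
        simp only [Fin.ofNat]
        exact Nat.mod_eq_of_lt (by omega)
      · right
        have h2 : (Sum.inr (some t') : W T) = bW T (t + 1) := congrArg Prod.snd h1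
        have h3 := Option.some_injective _ (Sum.inr_injective h2)
        rw [h3]
        simp only [Fin.ofNat]
        exact Nat.mod_eq_of_lt (by omega)
      · exact absurd (congrArg Prod.snd h1) (fun h2 => Sum.inr_ne_inl h2)
      · exact absurd (congrArg Prod.snd h1) (fun h2 => Sum.inr_ne_inl h2)
    have hY : Ymass T x 1 = ∑ t' : Fin (T + 1), x (1, Sum.inr (some t')) := by
      unfold Ymass; rw [ha, zero_add]
    have hlo : t * Ymass T x 1 ≤ theta T x 1 := by
      rw [hY, Finset.mul_sum]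
      unfold theta
      refine Finset.sum_le_sum fun t' _ => ?_
      by_cases hc : x (1, Sum.inr (some t')) = 0
      · rw [hc, mul_zero, mul_zero]
      · refine mul_le_mul_of_nonneg_right ?_ (hnn _)
        rcases hb t' hc with h1 | h1
        · rw [h1]
        · rw [h1]; push_cast; linarith
    have hhi : theta T x 1 ≤ (t + 1) * Ymass T x 1 := by
      rw [hY, Finset.mul_sum]
      unfold theta
      refine Finset.sum_le_sum fun t' _ => ?_
      by_cases hc : x (1, Sum.inr (some t')) = 0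
      · rw [hc, mul_zero, mul_zero]
      · refine mul_le_mul_of_nonneg_right ?_ (hnn _)
        rcases hb t' hc with h1 | h1
        · rw [h1]; linarith
        · rw [h1]; push_cast; linarith
    refine ⟨fun s => s = t ∨ s = t + 1, ?_, ?_⟩
    · intro s s' hs hs'
      omega
    · intro k i hne
      rcases hcase k i hne with h1 | ⟨s, h1, h2, h3⟩
      · rcases hSv _ (hxS _ h1) with h1 | h1 | h1 | h1
        · exact absurd (congrArg Prod.snd h1) (fun h2 => Sum.inl_ne_inr h2)
        · exact absurd (congrArg Prod.snd h1) (fun h2 => Sum.inl_ne_inr h2)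
        · refine ⟨t, Or.inl rfl, congrArg Prod.fst h1, ?_⟩
          exact (Sum.inl_injective (congrArg Prod.snd h1)).symm
        · refine ⟨t + 1, Or.inr rfl, congrArg Prod.fst h1, ?_⟩
          exact (Sum.inl_injective (congrArg Prod.snd h1)).symm
      · exact ⟨s, psi_loc h1 hlo hhi, h2, h3⟩
  rcases hSS with hSS | hSS | hSS
  · apply hAB
    intro v hv
    rw [hSS] at hv
    rcases hv with rfl | rfl | rfl
    · exact Or.inl rfl
    · exact Or.inr (Or.inl rfl)
    · exact Or.inr (Or.inr (Or.inr rfl))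
  · apply hAB
    intro v hv
    rw [hSS] at hv
    rcases hv with rfl | rfl | rfl
    · exact Or.inl rfl
    · exact Or.inr (Or.inr (Or.inl rfl))
    · exact Or.inr (Or.inr (Or.inr rfl))
  · refine ⟨fun s => psi (Ymass T x 1) (theta T x 1) s ≠ 0, fun s s' hs hs' =>
      psi_close hs hs', ?_⟩
    intro k i hne
    rcases hcase k i hne with h1 | h1
    · exfalso
      have h2 := hxS _ h1
      rw [hSS] at h2
      rcases h2 with h2 | h2 | h2
      · exact Sum.inl_ne_inr (congrArg Prod.snd h2)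
      · exact Sum.inl_ne_inr (congrArg Prod.snd h2)
      · exact Sum.inl_ne_inr (congrArg Prod.snd h2)
    · exact h1

lemma F_loc' {T : ℕ} {g : G} {S : Set (G × W T)} (hS : S ∈ pieces T g) (x : G × W T → ℝ)
    (hx : ∀ v, 0 ≤ x v) (h : G) (hxS : ∀ v, x v ≠ 0 → (h * v.1, v.2) ∈ S) {k k' : G} {i : Fin 2}
    (hk : F T g x (k, i) ≠ 0) (hk' : F T g x (k', i) ≠ 0) : k = k' := by
  have key := F_loc hS (fun v => x (h⁻¹ * v.1, v.2)) (fun v => hx _) (fun v hv => by
      have h2 := hxS _ hv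
      rwa [mul_inv_cancel_left] at h2) (k := h * k) (k' := h * k') (i := i)
      (by rw [F_shift, inv_mul_cancel_left]; exact hk)
      (by rw [F_shift, inv_mul_cancel_left]; exact hk')
  exact mul_left_cancel key

variable [Fintype G]

/-- `ind ≤ 1` -/
lemma theK_mapsTo_one {T : ℕ} (hT : 0 < T) (g : G) : (theK T hT g).MapsTo 1 := by
  refine ⟨fun x => ⟨F T g x.1, fun v => F_nonneg T g x.1 x.2.1 v,
    (F_sum T g x.1 x.2.1).trans x.2.2.1, ?_⟩, ?_, ?_⟩
  · intro i k k' hk hk'
    obtain ⟨s, hs, hx⟩ := x.2.2.2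
    obtain ⟨_, h, S, hS, hm⟩ := hs
    exact F_loc' hS x.1 x.2.1 h (fun v hv => hm v (hx v hv)) hk hk'
  · exact Continuous.subtype_mk ((continuous_F T g).comp continuous_subtype_val) _
  · intro h x
    apply Subtype.ext
    funext v
    exact F_shift T g h⁻¹ x.1 v

end Pool.Agent.Helper5.CrossIndex
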