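import Pool.Agent.Helper5.CrossIndex.Lower
import Pool.Agent.Helper5.CrossIndex.Upper

set_option autoImplicit false

namespace Pool.Agent.Helper5.CrossIndex

universe u

variable {G : Type u} [Group G]

/-! ### `ind ≥ 1` -/

lemma join_zero_val [Fintype G] (y : Join G 0) (v : G × Fin (0 + 1)) : y.1 v = 0 ∨ y.1 v = 1 := by
  by_cases h : y.1 v = 0
  · exact Or.inl h
  · right
    have h1 := y.2.2.1
    rw [Finset.sum_eq_single v] at h1
    · exact h1
    · intro w _ hwv
      by_contra hw
      apply hwv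
      have e : w.2 = v.2 := by
        apply Fin.ext
        have := w.2.2
        have := v.2.2
        omega
      have h2 : y.1 (w.1, v.2) ≠ 0 := by rw [← e]; exact hw
      have h3 := y.2.2.2 v.2 w.1 v.1 h2 h
      exact Prod.ext h3 e
    · intro hv; exact absurd (Finset.mem_univ v) hv

open Classical in
/-- indicator of a vertex -/
noncomputable def ind1 {V : Type u} (u w : V) : ℝ := if w = u then 1 else 0

lemma ind1_self {V : Type u} (u : V) : ind1 u u = 1 := by simp [ind1]

lemma ind1_ne {V : Type u} {u w : V} (h : w ≠ u) : ind1 u w = 0 := by simp [ind1, h]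

lemma ind1_nonneg {V : Type u} (u w : V) : 0 ≤ ind1 u w := by
  unfold ind1; split_ifs <;> norm_num

lemma sum_ind1 {V : Type u} [Fintype V] (u : V) : ∑ w, ind1 u w = 1 := by
  classical
  rw [Finset.sum_eq_single u]
  · exact ind1_self u
  · intro w _ h; exact ind1_ne h
  · intro h; exact absurd (Finset.mem_univ u) h

/-- the segment between two vertices of a face -/
noncomputable def seg (X : GComplex G) (u v : X.V) (s : Finset X.V) (hs : s ∈ X.K.faces)
    (hu : u ∈ s) (hv : v ∈ s) (τ : unitInterval) : X.Real :=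
  ⟨fun w => (1 - (τ : ℝ)) * ind1 u w + (τ : ℝ) * ind1 v w, by
    refine ⟨fun w => ?_, ?_, s, hs, fun w hw => ?_⟩
    · have h0 := τ.2.1
      have h1 := τ.2.2
      exact add_nonneg (mul_nonneg (by linarith) (ind1_nonneg _ _))
        (mul_nonneg h0 (ind1_nonneg _ _))
    · rw [Finset.sum_add_distrib, ← Finset.mul_sum, ← Finset.mul_sum, sum_ind1, sum_ind1]
      ring
    · by_contra hws
      apply hw
      have h1 : w ≠ u := fun h => hws (h ▸ hu)
      have h2 : w ≠ v := fun h => hws (h ▸ hv)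
      show (1 - (τ : ℝ)) * ind1 u w + (τ : ℝ) * ind1 v w = 0
      rw [ind1_ne h1, ind1_ne h2]
      ring⟩

lemma continuous_seg (X : GComplex G) (u v : X.V) (s : Finset X.V) (hs : s ∈ X.K.faces)
    (hu : u ∈ s) (hv : v ∈ s) : Continuous (seg X u v s hs hu hv) := by
  refine Continuous.subtype_mk (continuous_pi fun w => ?_) _
  fun_prop

/-- the vertex `u` as a point -/
noncomputable def pt (X : GComplex G) (u : X.V) : X.Real :=
  ⟨ind1 u, ind1_nonneg u, sum_ind1 u, {u}, X.K.singleton_mem u, fun w hw => by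
    by_contra h
    rw [Finset.mem_singleton] at h
    exact hw (ind1_ne h)⟩

lemma seg_zero (X : GComplex G) (u v : X.V) (s : Finset X.V) (hs : s ∈ X.K.faces)
    (hu : u ∈ s) (hv : v ∈ s) : seg X u v s hs hu hv 0 = pt X u := by
  apply Subtype.ext
  funext w
  show (1 - ((0 : unitInterval) : ℝ)) * ind1 u w + ((0 : unitInterval) : ℝ) * ind1 v w = ind1 u w
  simp

lemma seg_one (X : GComplex G) (u v : X.V) (s : Finset X.V) (hs : s ∈ X.K.faces)
    (hu : u ∈ s) (hv : v ∈ s) : seg X u v s hs hu hv 1 = pt X v := by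
  apply Subtype.ext
  funext w
  show (1 - ((1 : unitInterval) : ℝ)) * ind1 u w + ((1 : unitInterval) : ℝ) * ind1 v w = ind1 v w
  simp

lemma smul_pt (X : GComplex G) (g : G) (u : X.V) : g • pt X u = pt X (g • u) := by
  apply Subtype.ext
  funext w
  show ind1 u (g⁻¹ • w) = ind1 (g • u) w
  by_cases h : w = g • u
  · rw [h, inv_smul_smul, ind1_self, ind1_self]
  · rw [ind1_ne h, ind1_ne]
    intro h'
    apply h
    rw [← h', smul_inv_smul]

lemma const_on_edge [Fintype G] (X : GComplex G) (f : X.Real → Join G 0) (hf : Continuous f)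
    (u v : X.V) (s : Finset X.V) (hs : s ∈ X.K.faces) (hu : u ∈ s) (hv : v ∈ s) :
    f (pt X u) = f (pt X v) := by
  apply Subtype.ext
  funext w
  let p : unitInterval → ℝ := fun τ => (f (seg X u v s hs hu hv τ)).1 w
  have hp : Continuous p := by
    have h1 := hf.comp (continuous_seg X u v s hs hu hv)
    exact (continuous_apply w).comp (continuous_subtype_val.comp h1)
  have hp01 : ∀ τ, p τ = 0 ∨ p τ = 1 := fun τ => join_zero_val _ _
  have e0 : p 0 = (f (pt X u)).1 w := by
    show (f (seg X u v s hs hu hv 0)).1 w = _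
    rw [seg_zero]
  have e1 : p 1 = (f (pt X v)).1 w := by
    show (f (seg X u v s hs hu hv 1)).1 w = _
    rw [seg_one]
  rw [← e0, ← e1]
  rcases hp01 0 with h0 | h0 <;> rcases hp01 1 with h1 | h1
  · rw [h0, h1]
  · exfalso
    have h2 := intermediate_value_univ 0 1 hp
    have h3 : (1 / 2 : ℝ) ∈ Set.Icc (p 0) (p 1) := by rw [h0, h1]; norm_num
    obtain ⟨τ, hτ⟩ := h2 h3
    rcases hp01 τ with h4 | h4 <;> rw [h4] at hτ <;> norm_num at hτ
  · exfalso
    have h2 := intermediate_value_univ 1 0 hp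
    have h3 : (1 / 2 : ℝ) ∈ Set.Icc (p 1) (p 0) := by rw [h0, h1]; norm_num
    obtain ⟨τ, hτ⟩ := h2 h3
    rcases hp01 τ with h4 | h4 <;> rw [h4] at hτ <;> norm_num at hτ
  · rw [h0, h1]

lemma theK_not_mapsTo_zero [Fintype G] {T : ℕ} (hT : 0 < T) (hT2 : 1 < T) (g : G) (hg : g ≠ 1) :
    ¬ (theK T hT g).MapsTo 0 := by
  rintro ⟨f, hf, heq⟩
  obtain ⟨s, hs, -, ha, hb⟩ := exists_face hT g _ ⟨0, hT, Or.inr (Or.inl rfl)⟩ _ _ _ rfl
  obtain ⟨s', hs', -, ha', hb'⟩ := exists_face hT g _ ⟨1, hT2, Or.inr (Or.inl rfl)⟩ _ _ _ rfl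
  have e1 := const_on_edge (theK T hT g) f hf _ _ s hs ha hb
  have e2 := const_on_edge (theK T hT g) f hf _ _ s' hs' ha' hb'
  have e12 := e1.trans e2
  have hcv : cv T g (1 + 1) = (g * (cv T g 0).1, (cv T g 0).2) := by
    show (g ^ ((1 + 1) / 2), cW T (1 + 1)) = (g * g ^ (0 / 2), cW T 0)
    simp [cW, par]
  have e3 : pt (theK T hT g) (cv T g (1 + 1)) = g • pt (theK T hT g) (cv T g 0) := by
    refine Eq.trans ?_ (smul_pt (theK T hT g) g (cv T g 0)).symm
    exact congrArg (pt (theK T hT g)) hcv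
  rw [e3, heq] at e12
  set y := f (pt (theK T hT g) (cv T g 0)) with hy
  have h1 : ∃ w, y.1 w ≠ 0 := by
    by_contra hcon
    push Not at hcon
    have h2 := y.2.2.1
    rw [Finset.sum_eq_zero (fun v _ => hcon v)] at h2
    exact zero_ne_one h2
  obtain ⟨w, hw⟩ := h1
  have h2 : y.1 w = y.1 (g⁻¹ * w.1, w.2) := congrFun (congrArg Subtype.val e12) w
  have h3 : y.1 (g⁻¹ * w.1, w.2) ≠ 0 := by rw [← h2]; exact hw
  have h4 : w.1 = g⁻¹ * w.1 := y.2.2.2 w.2 _ _ hw h3
  have h5 : 1 * w.1 = g⁻¹ * w.1 := by rw [one_mul]; exact h4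
  have h6 := mul_right_cancel h5
  exact hg (inv_eq_one.mp h6.symm)

/-! ### `Xind ≤ 2` -/

/-- a complex with a free action on the faces, all of at most three vertices -/
lemma level_map [Fintype G] (X : GComplex G) (hfree : X.FreeFaces)
    (hcard : ∀ s ∈ X.K.faces, Finset.card s ≤ 3) : X.facePoset.MapsTo (QPoset G 2) := by
  classical
  let rel : Setoid X.facePoset.P := MulAction.orbitRel G X.facePoset.P
  let rep : X.facePoset.P → X.facePoset.P := fun s => Quotient.out (Quotient.mk rel s)
  have hrep : ∀ s, ∃ k : G, k • rep s = s := by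
    intro s
    have h1 : rel (rep s) s := Quotient.exact (Quotient.out_eq (Quotient.mk rel s))
    have h2 : rel s (rep s) := rel.symm h1
    exact MulAction.mem_orbit_iff.mp (MulAction.orbitRel_apply.mp h2)
  have hrepg : ∀ (g : G) (s : X.facePoset.P), rep (g • s) = rep s := by
    intro g s
    show Quotient.out (Quotient.mk rel (g • s)) = Quotient.out (Quotient.mk rel s)
    congr 1
    apply Quotient.sound
    show rel (g • s) s
    exact MulAction.orbitRel_apply.mpr (MulAction.mem_orbit s g)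
  choose k hk using hrep
  have hkg : ∀ (g : G) (s : X.facePoset.P), k (g • s) = g * k s := by
    intro g s
    have h1 := hk (g • s)
    rw [hrepg] at h1
    have h2 : (g * k s) • rep s = g • s := by rw [mul_smul, hk]
    have h3 : ((g * k s)⁻¹ * k (g • s)) • rep s = rep s := by
      rw [mul_smul, h1, ← h2, inv_smul_smul]
    have h4 := hfree _ _ h3
    exact (inv_mul_eq_one.mp h4).symm
  have hlt : ∀ s : X.facePoset.P, s.1.card - 1 < 2 + 1 := by
    intro s
    have := hcard s.1 s.2
    omega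
  refine ⟨fun s => (k s, ⟨s.1.card - 1, hlt s⟩), ?_, ?_⟩
  · intro x y hxy
    rcases eq_or_lt_of_le hxy with h | h
    · subst h
      exact Or.inl rfl
    · right
      have h1 : x.1 ⊂ y.1 := h
      have h2 := Finset.card_lt_card h1
      have h3 : 0 < x.1.card := by
        have : x.1.Nonempty := (X.K.isRelLowerSet_faces x.2).1
        exact this.card_pos
      show x.1.card - 1 < y.1.card - 1
      omega
  · intro g x
    have h1 : (g • x).1.card = x.1.card := by
      show (x.1.map (MulAction.toPerm g).toEmbedding).card = x.1.card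
      exact Finset.card_map _
    apply Prod.ext
    · exact hkg g x
    · apply Fin.ext
      show (g • x).1.card - 1 = x.1.card - 1
      rw [h1]

lemma sd_card (X : GComplex G) (hcard : ∀ s ∈ X.K.faces, Finset.card s ≤ 3) :
    ∀ s ∈ X.sd.K.faces, Finset.card s ≤ 3 := by
  classical
  intro C hC
  let C : Finset X.facePoset.P := C
  have hchain : IsChain (· ≤ ·) (C : Set X.facePoset.P) := hC.2
  have h1 : ∀ s ∈ C, (fun s : X.facePoset.P => s.1.card) s ∈ Finset.Icc 1 3 := by
    intro s _
    rw [Finset.mem_Icc]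
    have h3 : 0 < s.1.card := by
      have : s.1.Nonempty := (X.K.isRelLowerSet_faces s.2).1
      exact this.card_pos
    exact ⟨h3, hcard s.1 s.2⟩
  have h2 : Set.InjOn (fun s : X.facePoset.P => s.1.card) (C : Set X.facePoset.P) := by
    intro s hs t ht hst
    by_contra hne
    rcases hchain hs ht hne with h | h
    · have h4 : s.1 ⊆ t.1 := h
      exact hne (Subtype.ext (Finset.eq_of_subset_of_card_le h4 (le_of_eq hst.symm)))
    · have h4 : t.1 ⊆ s.1 := h
      exact hne (Subtype.ext (Finset.eq_of_subset_of_card_le h4 (le_of_eq hst)).symm)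
  have h5 := Finset.card_le_card_of_injOn _ h1 h2
  have h6 : C.card ≤ 3 := by simpa using h5
  exact h6

lemma sd_freeFaces (X : GComplex G) (hfree : X.FreeFaces) : X.sd.FreeFaces := by
  intro g C hgC
  let D : Finset X.facePoset.P := C.1
  have hchain : IsChain (· ≤ ·) (D : Set X.facePoset.P) := C.2.2
  obtain ⟨s, hs⟩ := C.2.1
  have h1 := mem_smul_face X.sd g C s hs
  rw [hgC] at h1
  let s' : X.facePoset.P := s
  have h2 : g • s' ∈ (D : Set X.facePoset.P) := h1
  have h2' : s' ∈ (D : Set X.facePoset.P) := hs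
  have hcard : (g • s').1.card = s'.1.card := by
    show (s'.1.map (MulAction.toPerm g).toEmbedding).card = s'.1.card
    exact Finset.card_map _
  have h3 : g • s' = s' := by
    by_contra hne
    rcases hchain h2 h2' hne with h | h
    · have h4 : (g • s').1 ⊆ s'.1 := h
      exact hne (Subtype.ext (Finset.eq_of_subset_of_card_le h4 (le_of_eq hcard.symm)))
    · have h4 : s'.1 ⊆ (g • s').1 := h
      exact hne (Subtype.ext (Finset.eq_of_subset_of_card_le h4 (le_of_eq hcard)).symm)
  exact hfree g s' h3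

lemma sd_iter_props (X : GComplex G) (hfree : X.FreeFaces)
    (hcard : ∀ s ∈ X.K.faces, Finset.card s ≤ 3) (r : ℕ) :
    (GComplex.sd^[r] X).FreeFaces ∧
      ∀ s ∈ (GComplex.sd^[r] X).K.faces, Finset.card s ≤ 3 := by
  induction r with
  | zero => exact ⟨hfree, hcard⟩
  | succ r ih =>
    rw [Function.iterate_succ_apply']
    exact ⟨sd_freeFaces _ ih.1, sd_card _ ih.2⟩

lemma Q_zero_one [Fintype G] : (QPoset G 0).MapsTo (QPoset G 1) := by
  refine ⟨fun x => (x.1, 0), ?_, ?_⟩
  · intro x y hxy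
    rcases hxy with h | h
    · subst h
      exact Or.inl rfl
    · exfalso
      have h1 := x.2.2
      have h2 := y.2.2
      have h3 : x.2.1 < y.2.1 := h
      omega
  · intro g x
    rfl

lemma GPoset.MapsTo.trans {P Q R : GPoset G} (h1 : P.MapsTo Q) (h2 : Q.MapsTo R) :
    P.MapsTo R := by
  obtain ⟨f, f1, f2⟩ := h1
  obtain ⟨k, k1, k2⟩ := h2
  exact ⟨k ∘ f, fun x y hxy => k1 _ _ (f1 _ _ hxy), fun g x => by
    show k (f (g • x)) = g • k (f x)
    rw [f2, k2]⟩

/-- the main result -/
theorem main (G : Type u) [Group G] [Fintype G] [Nontrivial G] (r : ℕ) :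
    ∃ X : GComplex G, X.Free ∧ X.IndEq 1 ∧ ((GComplex.sd^[r]) X).facePoset.XindEq 2 := by
  obtain ⟨g, hg⟩ := exists_ne (1 : G)
  let n : ℕ := 4 * (2 ^ (r + 1) * orderOf g) + 1
  have hT : 0 < 2 * n := by omega
  refine ⟨theK (2 * n) hT g, theK_free hT g, ⟨theK_mapsTo_one hT g, ?_⟩, ?_, ?_⟩
  · intro j hj
    by_contra hcon
    have hj0 : j = 0 := by omega
    rw [hj0] at hj
    exact theK_not_mapsTo_zero hT (by omega) g hg hj
  · obtain ⟨h1, h2⟩ := sd_iter_props (theK (2 * n) hT g) (theK_freeFaces hT g)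
      (theK_card hT g) r
    exact level_map _ h1 h2
  · intro j hj
    by_contra hcon
    push Not at hcon
    have h1 : (((GComplex.sd^[r]) (theK (2 * n) hT g)).facePoset).MapsTo (QPoset G 1) := by
      have hj01 : j = 0 ∨ j = 1 := by omega
      rcases hj01 with h | h
      · rw [h] at hj
        exact GPoset.MapsTo.trans hj Q_zero_one
      · rw [h] at hj
        exact hj
    have h2 := (HasCoc.pull h1 (hasCoc_Q g)).sd_iter r
    refine not_hasEdge g hg _ n ?_ hT h2
    show 4 * ((2 : ℤ) ^ (r + 1) * (orderOf g : ℤ)) < ((4 * (2 ^ (r + 1) * orderOf g) + 1 : ℕ) : ℤ)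
    push_cast
    linarith

end Pool.Agent.Helper5.CrossIndex
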